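import Pool.Agent.H.MP_4eb715_lc.C

/-! It is decidable whether a regular tree language is a tree substitution language. -/

namespace Pool.Agent.Results.MP_4eb715_lc.Dec

open Pool.Agent.H.MP_4eb715_lc

/-- The input is a ranked alphabet (the list of ranks), the transitions and the final states of a
finite nondeterministic bottom-up tree automaton. -/
theorem result : ComputablePred fun z : List ℕ × List (ℕ × List ℕ × ℕ) × List ℕ =>
    IsTSL z.1 (autLang z.1 z.2.1 z.2.2) :=
  dec_tsl

end Pool.Agent.Results.MP_4eb715_lc.Dec
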